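import Pool.Agent.helper59.ZB.SpecH

/-!
# Row zbh:HTOT (MP_baa4d7_al): orthogonality of the columns of different classes
-/

set_option autoImplicit false

namespace Pool.Agent.GB

open Pool.Agent.helper58.DC Pool.Agent.DI Pool.Agent.GR Pool.Agent.OB Pool.Agent.DR Pool.Agent.FI Pool.Agent.FI3 Pool.Agent.FI4 Pool.Agent.LE Pool.Agent.BR

theorem HTOT_top {G : Type} [Group G] (g : G) : cjS g (⊤ : Subgroup G) = ⊤ := by
  refine top_unique fun x _ => ?_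
  rw [mem_cjS]
  exact Subgroup.mem_top _

theorem HTOT (hHOR : HOR_stmt) (hFUZ : FUZ_stmt) (hFEQ : FEQ_stmt) : HTOT_stmt := by
  intro p M hS G _ _ D T x θ χ hZ u hu u' hu' hT η hη η' hη'
  have hPE : ∀ v ∈ T, PEl p v := by
    intro v hv
    obtain ⟨k0, hk0⟩ := hZ.rt.dfa.pgrp ⟨v, hZ.tle hv⟩
    have hk1 : v ^ p ^ k0 = 1 := by
      have := congrArg (fun a : D => (a : G)) hk0
      simpa using this
    exact ⟨k0, hk1⟩
  refine hHOR p M hS G θ u u' (hPE u hu) (hPE u' hu') η hη.1 η' hη'.1 ?_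
  intro g hg hSB
  have hL : cjS g (Cz (⊤ : Subgroup G) u) = Cz (⊤ : Subgroup G) u' := by
    have h1 := (hFEQ G M g 1 ⊤ ⊤ (⊤ : Subgroup G) θ θ θ).2.2.1 u
    rw [h1, HTOT_top, hg]
  have h1 := (hFEQ G M g 1 ⊤ ⊤ (Cz (⊤ : Subgroup G) u) θ η θ).2.2.2.2.1
  rw [hL] at h1
  have h2 : SB M (Cz (⊤ : Subgroup G) u') (cjF g θ) (cjF g η) := h1.1 hη.2.symm
  have h3 : SB M (Cz (⊤ : Subgroup G) u') (cjF g θ) θ := (h2.trans hSB).trans hη'.2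
  have h4 := (hFEQ G M g 1 ⊤ ⊤ (Cz (⊤ : Subgroup G) u) θ (cjF g⁻¹ θ) θ).2.2.2.2.1
  have h5 : cjF g (cjF g⁻¹ θ) = θ := by
    rw [(hFEQ G M g g⁻¹ ⊤ ⊤ (⊤ : Subgroup G) θ θ θ).1.2.1, mul_inv_cancel]
    exact (hFEQ G M g g⁻¹ ⊤ ⊤ (⊤ : Subgroup G) θ θ θ).1.2.2.2
  rw [hL, h5] at h4
  obtain ⟨τ, hτ, k, hk, hgk⟩ := hFUZ p M hS G D x θ χ hZ.rt u (hZ.tle hu) (hZ.tcz hu) g (by rw [hg]; exact hZ.tle hu') (by rw [hg]; exact hZ.tcz hu') (h4.2 h3)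
  refine hT τ hτ ?_
  have hku : k * u = u * k := by
    have h : k ∈ Subgroup.centralizer ({u} : Set G) := hk.2
    rwa [Subgroup.mem_centralizer_singleton_iff] at h
  rw [← hg, hgk]
  have h6 : τ * k * u * (τ * k)⁻¹ = τ * (k * u) * k⁻¹ * τ⁻¹ := by group
  rw [h6, hku]
  group

end Pool.Agent.GB
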